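import Pool.Agent.Helper93.WP.St

/-!
# Project WP, module ALG: the difference polynomial of the Lucas polynomials modulo `p`
-/

set_option autoImplicit false

namespace Pool.Agent.Helper27.WP

open Polynomial Pool.Agent.Helper69.WS Pool.Agent.Helper93.WP

/-- the Lucas polynomials of the second kind over `ℤ` -/
noncomputable def VV (n : ℤ) : ℕ → ℤ[X]
  | 0 => 2
  | 1 => X
  | (m + 2) => X * VV n (m + 1) - C n * VV n m

/-- the Lucas polynomials of the first kind over `ℤ` -/
noncomputable def UU (n : ℤ) : ℕ → ℤ[X]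
  | 0 => 0
  | 1 => 1
  | (m + 2) => X * UU n (m + 1) - C n * UU n m

theorem VV_succ (n : ℤ) (m : ℕ) : VV n (m + 2) = X * VV n (m + 1) - C n * VV n m := rfl
theorem UU_succ (n : ℤ) (m : ℕ) : UU n (m + 2) = X * UU n (m + 1) - C n * UU n m := rfl

theorem eval_VV (n t : ℤ) (m : ℕ) :
    (VV n m).eval t = lucV t n m ∧ (VV n (m + 1)).eval t = lucV t n (m + 1) := by
  induction m with
  | zero =>
    constructor
    · simp [VV, lucV]
    · simp [VV, lucV]
  | succ m ih =>
    refine ⟨ih.2, ?_⟩
    have h3 : lucV t n (m + 1 + 1) = t * lucV t n (m + 1) - n * lucV t n m := rfl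
    rw [h3, VV_succ, eval_sub, eval_mul, eval_mul, eval_X, eval_C, ih.1, ih.2]

theorem VV_eq (n : ℤ) (m : ℕ) :
    VV n (m + 1) = X * UU n (m + 1) - 2 * C n * UU n m ∧
      VV n (m + 2) = X * UU n (m + 2) - 2 * C n * UU n (m + 1) := by
  induction m with
  | zero =>
    constructor
    · simp [VV, UU]
    · simp [VV, UU]
      ring
  | succ m ih =>
    refine ⟨ih.2, ?_⟩
    have h1 : VV n (m + 1 + 2) = X * VV n (m + 2) - C n * VV n (m + 1) := rfl
    have h2 : UU n (m + 1 + 2) = X * UU n (m + 2) - C n * UU n (m + 1) := rfl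
    have h3 : UU n (m + 2) = X * UU n (m + 1) - C n * UU n m := rfl
    have h4 : UU n (m + 1 + 1) = UU n (m + 2) := rfl
    rw [h1, h2, ih.1, ih.2, h4, h3]
    ring

theorem deriv_VV (n : ℤ) (m : ℕ) :
    derivative (VV n m) = (m : ℤ[X]) * UU n m ∧
      derivative (VV n (m + 1)) = ((m + 1 : ℕ) : ℤ[X]) * UU n (m + 1) := by
  induction m with
  | zero =>
    constructor
    · have h : (VV n 0) = C 2 := by simp [VV]
      rw [h, derivative_C]; simp
    · simp [VV, UU]
  | succ m ih =>
    refine ⟨ih.2, ?_⟩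
    have h1 := (VV_eq n m).1
    have h4 : UU n (m + 1 + 1) = X * UU n (m + 1) - C n * UU n m := rfl
    rw [VV_succ, derivative_sub, derivative_mul, derivative_mul, derivative_X, derivative_C, ih.1,
      ih.2, h1, h4]
    push_cast
    ring

theorem monic_VV (n : ℤ) (m : ℕ) : (VV n (m + 1)).Monic ∧ (VV n (m + 1)).natDegree = m + 1 ∧
    (VV n m).natDegree ≤ m := by
  induction m with
  | zero =>
    refine ⟨?_, ?_, ?_⟩
    · show (X : ℤ[X]).Monic
      exact monic_X
    · show (X : ℤ[X]).natDegree = 0 + 1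
      simp
    · have h : (VV n 0) = C 2 := by simp [VV]
      rw [h, natDegree_C]
  | succ m ih =>
    obtain ⟨h1, h2, h3⟩ := ih
    have hm : (X * VV n (m + 1)).Monic := monic_X.mul h1
    have hd : (X * VV n (m + 1)).natDegree = m + 2 := by
      rw [monic_X.natDegree_mul h1, h2, natDegree_X]; ring
    have hq : (C n * VV n m).natDegree ≤ m := (natDegree_C_mul_le n _).trans h3
    have hdd : (C n * VV n m).degree < (X * VV n (m + 1)).degree := by
      rw [degree_eq_natDegree hm.ne_zero, hd]
      refine (degree_le_natDegree).trans_lt ?_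
      exact_mod_cast (by omega : (C n * VV n m).natDegree < m + 2)
    refine ⟨?_, ?_, by omega⟩
    · rw [VV_succ]
      exact hm.sub_of_left hdd
    · rw [VV_succ, natDegree_sub_eq_left_of_natDegree_lt (by omega), hd]

/-- the values modulo `p` -/
theorem mod_p (n : ℤ) (p : ℕ) [Fact p.Prime] (hp2 : p ≠ 2) :
    (VV n p).map (Int.castRingHom (ZMod p)) = X ^ p ∧
      (UU n p).map (Int.castRingHom (ZMod p)) = del (n : ZMod p) ^ ((p - 1) / 2) := by
  have hp : p.Prime := Fact.out
  let F := FractionRing (ZMod p)[X]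
  let K := AlgebraicClosure F
  let φ : (ZMod p)[X] →+* K := (algebraMap F K).comp (algebraMap (ZMod p)[X] F)
  have hφ : Function.Injective φ :=
    (algebraMap F K).injective.comp (IsFractionRing.injective (ZMod p)[X] F)
  have : CharP K p := charP_of_injective_ringHom hφ p
  have : ExpChar K p := ExpChar.prime hp
  set T : K := φ X with hT
  obtain ⟨x, hx⟩ : ∃ x : K, x ^ 2 - T * x + (n : K) = 0 := by
    have hdeg : (Polynomial.X ^ 2 - Polynomial.C T * Polynomial.X + Polynomial.C (n : K)).degree ≠ 0 := by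
      have h0 : (Polynomial.X ^ 2 - Polynomial.C T * Polynomial.X + Polynomial.C (n : K) :
          Polynomial K) = Polynomial.C 1 * Polynomial.X ^ 2 + Polynomial.C (-T) * Polynomial.X +
            Polynomial.C (n : K) := by
        rw [Polynomial.C_1, Polynomial.C_neg]
        ring
      rw [h0, Polynomial.degree_quadratic one_ne_zero]
      norm_num
    obtain ⟨x, hx⟩ := IsAlgClosed.exists_root _ hdeg
    refine ⟨x, ?_⟩
    simpa [Polynomial.IsRoot.def] using hx
  set y : K := T - x with hy
  have h1 : x + y = T := by rw [hy]; ring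
  have h2 : x * y = n := by rw [hy]; linear_combination -hx
  let ψ : ℤ[X] →+* K := φ.comp (Polynomial.mapRingHom (Int.castRingHom (ZMod p)))
  have hψX : ψ X = T := by simp [ψ, hT]
  have hψC : ∀ a : ℤ, ψ (C a) = (a : K) := by intro a; simp [ψ]
  have hV : ∀ m : ℕ, ψ (VV n m) = x ^ m + y ^ m ∧ ψ (VV n (m + 1)) = x ^ (m + 1) + y ^ (m + 1) := by
    intro m
    induction m with
    | zero =>
      constructor
      · have h : (VV n 0) = C 2 := by simp [VV]
        rw [h, hψC]; norm_num
      · have h : (VV n (0 + 1)) = X := rfl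
        rw [h, hψX, ← h1]; ring
    | succ m ih =>
      refine ⟨ih.2, ?_⟩
      rw [VV_succ, map_sub, map_mul, map_mul, ih.1, ih.2, hψX, hψC, ← h1, ← h2]
      ring
  have hU : ∀ m : ℕ, (x - y) * ψ (UU n m) = x ^ m - y ^ m ∧
      (x - y) * ψ (UU n (m + 1)) = x ^ (m + 1) - y ^ (m + 1) := by
    intro m
    induction m with
    | zero =>
      constructor
      · have h : (UU n 0) = 0 := rfl
        rw [h, map_zero]; ring
      · have h : (UU n (0 + 1)) = 1 := rfl
        rw [h, map_one]; ring
    | succ m ih =>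
      refine ⟨ih.2, ?_⟩
      rw [UU_succ, map_sub, map_mul, map_mul, hψX, hψC, ← h1, ← h2]
      linear_combination (x + y) * ih.2 - x * y * ih.1
  have hdisc : (x - y) ^ 2 = φ (del (n : ZMod p)) := by
    have e : φ (del (n : ZMod p)) = T ^ 2 - 4 * (n : K) := by
      have h4 : del (n : ZMod p) = X ^ 2 - 4 * ((n : ℤ) : (ZMod p)[X]) := by
        have h5 : (C (4 : ZMod p) : (ZMod p)[X]) = 4 := rfl
        simp [del, h5]
      rw [h4, map_sub, map_pow, map_mul, map_intCast, map_ofNat]
    rw [e, ← h1, ← h2]; ring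
  have hdel : del (n : ZMod p) ≠ 0 := by
    intro h
    have h3 := congrArg (fun q => coeff q 2) h
    simp [del, coeff_X_pow] at h3
  have hxy : x - y ≠ 0 := by
    intro h
    rw [h] at hdisc
    apply hdel
    apply hφ
    rw [map_zero, ← hdisc]; ring
  constructor
  · apply hφ
    have e : φ ((VV n p).map (Int.castRingHom (ZMod p))) = ψ (VV n p) := rfl
    rw [e, (hV p).1, ← add_pow_expChar, h1, map_pow]
  · apply hφ
    have e : φ ((UU n p).map (Int.castRingHom (ZMod p))) = ψ (UU n p) := rfl
    rw [e]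
    apply mul_left_cancel₀ hxy
    rw [(hU p).1, ← sub_pow_expChar, map_pow, ← hdisc, ← pow_mul, ← pow_succ']
    congr 1
    have hodd := hp.eq_two_or_odd'.resolve_left hp2
    obtain ⟨k, hk⟩ := hodd
    omega

/-- MODULE ALG -/
theorem hALG : Pool.Agent.Helper93.WP.StALG := by
  intro p _ hp2 n h
  have hp : p.Prime := Fact.out
  have hpz : (p : ℤ) ≠ 0 := by exact_mod_cast hp.ne_zero
  obtain ⟨hV, hU⟩ := mod_p n p hp2
  obtain ⟨k, hk⟩ : ∃ k, p = k + 1 := ⟨p - 1, by have := hp.pos; omega⟩
  have hmon : (VV n p).Monic ∧ (VV n p).natDegree = p := by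
    have := monic_VV n k
    rw [← hk] at this
    exact ⟨this.1, this.2.1⟩
  set q : ℤ[X] := X + C h with hq
  set W : ℤ[X] := (VV n p).comp q - VV n p - C h with hW
  have hqm : (q.map (Int.castRingHom (ZMod p))) = X + C (h : ZMod p) := by
    simp [hq]
  have : ExpChar (ZMod p)[X] p := ExpChar.prime hp
  have hmap0 : W.map (Int.castRingHom (ZMod p)) = 0 := by
    rw [hW, Polynomial.map_sub, Polynomial.map_sub, map_comp, hV, hqm, X_pow_comp, add_pow_expChar,
      map_C, ← C_pow, ZMod.pow_card]
    simp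
  have hdvd : C (p : ℤ) ∣ W := by
    rw [C_dvd_iff_dvd_coeff]
    intro i
    have h1 := congrArg (fun r => coeff r i) hmap0
    simp only [coeff_map, coeff_zero, eq_intCast] at h1
    exact (ZMod.intCast_zmod_eq_zero_iff_dvd _ _).1 h1
  obtain ⟨D0, hD0⟩ := hdvd
  have hcomp : ((VV n p).comp q).Monic ∧ ((VV n p).comp q).natDegree = p := by
    constructor
    · rw [hq]; exact hmon.1.comp (monic_X_add_C h) (by rw [natDegree_X_add_C]; exact one_ne_zero)
    · rw [natDegree_comp, hmon.2, hq, natDegree_X_add_C, mul_one]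
  have hdeg : W.degree < p := by
    have h1 : ((VV n p).comp q - VV n p).degree < ((VV n p).comp q).degree := by
      refine degree_sub_lt_left ?_ hcomp.1.ne_zero ?_
      · rw [degree_eq_natDegree hcomp.1.ne_zero, degree_eq_natDegree hmon.1.ne_zero, hcomp.2, hmon.2]
      · rw [hcomp.1.leadingCoeff, hmon.1.leadingCoeff]
    rw [degree_eq_natDegree hcomp.1.ne_zero, hcomp.2] at h1
    rw [hW]
    refine (degree_sub_le _ _).trans_lt (max_lt h1 ?_)
    refine degree_C_le.trans_lt ?_
    exact_mod_cast hp.pos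
  have hD0deg : D0.natDegree ≤ p - 1 := by
    by_cases h0 : D0 = 0
    · rw [h0]; simp
    · have h1 : W.natDegree = D0.natDegree := by
        rw [hD0, natDegree_C_mul hpz]
      have hW0 : W ≠ 0 := by
        rw [hD0]
        exact mul_ne_zero (by rw [Ne, C_eq_zero]; exact hpz) h0
      have h2 : W.natDegree < p := (natDegree_lt_iff_degree_lt hW0).2 hdeg
      omega
  have hder : derivative D0 = (UU n p).comp q - UU n p := by
    have h1 : derivative W = C (p : ℤ) * derivative D0 := by
      rw [hD0, derivative_mul, derivative_C]; ring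
    have h2 : derivative W = C (p : ℤ) * ((UU n p).comp q - UU n p) := by
      rw [hW, derivative_sub, derivative_sub, derivative_comp, (deriv_VV n p).1, derivative_C, hq]
      simp only [derivative_add, derivative_X, derivative_C, mul_comp, natCast_comp]
      have e : ((p : ℕ) : ℤ[X]) = C (p : ℤ) := by simp
      rw [e]
      ring
    have h3 : C (p : ℤ) * derivative D0 = C (p : ℤ) * ((UU n p).comp q - UU n p) := by
      rw [← h1, h2]
    exact mul_left_cancel₀ (by rw [Ne, C_eq_zero]; exact hpz) h3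
  refine ⟨D0.map (Int.castRingHom (ZMod p)), natDegree_map_le.trans hD0deg, ?_, ?_⟩
  · show derivative (D0.map (Int.castRingHom (ZMod p))) = _
    rw [derivative_map, hder, Polynomial.map_sub, map_comp, hU, hqm]
    congr 1
    simp [del, delh]
  · intro t v h1 h2
    have h3 : W.eval t = lucV (t + h) n p - lucV t n p - h := by
      rw [hW, eval_sub, eval_sub, eval_comp, hq, eval_add, eval_X, eval_C,
        (eval_VV n (t + h) p).1, (eval_VV n t p).1]
    have h4 : ((p : ℤ) ^ 2) ∣ W.eval t := by
      rw [h3]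
      have h5 := Int.modEq_iff_dvd.1 h1
      have h6 := Int.modEq_iff_dvd.1 h2
      have e : lucV (t + h) n p - lucV t n p - h =
          (t + p * v - lucV t n p) - (t + h + p * v - lucV (t + h) n p) := by ring
      rw [e]
      exact dvd_sub h5 h6
    have h7 : W.eval t = p * D0.eval t := by rw [hD0, eval_mul, eval_C]
    have h8 : (p : ℤ) ∣ D0.eval t := by
      rw [h7, sq] at h4
      exact (mul_dvd_mul_iff_left hpz).1 h4
    have h9 : (D0.map (Int.castRingHom (ZMod p))).eval (t : ZMod p) = ((D0.eval t : ℤ) : ZMod p) := by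
      simp
    rw [h9]
    exact (ZMod.intCast_zmod_eq_zero_iff_dvd _ _).2 h8

end Pool.Agent.Helper27.WP
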